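import Pool.Agent.Lead.Teach2

set_option autoImplicit false

namespace Pool.Agent.Results.MP_35a6f4_lc.Q1
open Pool.Agent.H11.PT Pool.Agent.Lead.Teach Polynomial

/-- positive and negative strings over the alphabet `Fin (m+1)` -/
abbrev Sample (m : ℕ) := List (List (Fin (m + 1))) × List (List (Fin (m + 1)))

variable {m : ℕ}

def Consistent (S : Sample m) (L : Language (Fin (m + 1))) : Prop :=
  (∀ w ∈ S.1, w ∈ L) ∧ ∀ w ∈ S.2, w ∉ L

/-- polynomial time in the bit size; the output is consistent with every non-contradictory sample -/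
def Learner (A : Sample m → Gr) : Prop :=
  PolyTime bits bits A ∧ ∀ S : Sample m, (∀ w ∈ S.1, w ∉ S.2) → Consistent S (toCFG m (A S)).language

def Characteristic (A : Sample m → Gr) (CS : Sample m) (G : ContextFreeGrammar (Fin (m + 1))) : Prop :=
  Consistent CS G.language ∧ ∀ S : Sample m, Consistent S G.language → CS.1 ⊆ S.1 → CS.2 ⊆ S.2 →
    (toCFG m (A S)).language = G.language

def str (m t : ℕ) : Str m := (dl t).map (Fin.ofNat (m + 1))
def hy (m i t : ℕ) : Bool := memb (gi i) (str m t)
def good (S : Sample m) (j : ℕ) : Bool :=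
  (S.1.all fun w => memb (gi j) w) && (S.2.all fun w => !memb (gi j) w) &&
    (List.range (sz S)).all fun t => !mis (hy m) j t || decide (str m t ∈ S.1 ++ S.2)
def lrn (S : Sample m) : Gr :=
  (((List.range (sz S)).filter (good S)).map gi).headD (S.1.map fun w => (0, w.map Fin.val))

theorem lrn_pt : PT (lrn (m := m)) := by
  have h1 : PT (str m) := by unfold str; fun_prop
  have h2 : PT fun p : ℕ × ℕ => hy m p.1 p.2 := memb_pt (by fun_prop) (h1.comp (by fun_prop))
  have h3 := mis_pt _ h2
  have h4 : PT fun p : Sample m × ℕ => good p.1 p.2 :=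
    PT.and (PT.and (PT.all (by fun_prop) (memb_pt (by fun_prop) (by fun_prop)))
      (PT.all (by fun_prop) (memb_pt (by fun_prop) (by fun_prop)).not))
      (PT.all (by fun_prop) (PT.or (h3.comp (g := fun p : (Sample m × ℕ) × ℕ => (p.1.2, p.2))
        (by fun_prop)).not (PT.decMem (by fun_prop) (h1.comp (by fun_prop)))))
  exact PT.headD (PT.map (PT.filter (by fun_prop) h4) (by fun_prop)) (by fun_prop)

theorem good_cons {S : Sample m} {j : ℕ} (h : good S j = true) :
    Consistent S (toCFG m (gi j)).language := by
  simp only [good, Bool.and_eq_true, List.all_eq_true, Bool.not_eq_true', ← Bool.not_eq_true,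
    memb_iff] at h
  exact h.1

theorem triv (P : List (Str m)) (w : Str m) :
    w ∈ (toCFG m (P.map fun w => (0, w.map Fin.val))).language ↔ w ∈ P := by
  have e : RR m (P.map fun w => (0, w.map Fin.val)) = P.map fun w => (0, w.map .inl) := by
    simp [RR, sy', Function.comp_def, Fin.is_le]
  have t : ∀ R (u : Str m) v, Pool.Agent.H16.CFG.Gn R (u.map .inl) v ↔ v = u := fun R u => by
    induction u with
    | nil => exact fun v => ⟨fun h => by cases h; rfl, fun h => by subst h; exact .nil⟩
    | cons a u ih => exact fun v => ⟨fun h => by cases h with | t _ h => rw [(ih _).1 h],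
        fun h => by subst h; exact .t a ((ih _).2 rfl)⟩
  rw [toCFG_eq, Pool.Agent.H16.CFG.mem_lang, e]
  refine ⟨fun h => ?_, fun h => .one (List.mem_map_of_mem h) ((t _ _ _).2 rfl)⟩
  cases h with
  | n h1 h2 h3 =>
    cases h3
    obtain ⟨u, hu, e⟩ := List.mem_map.1 h1
    obtain rfl := (Prod.ext_iff.1 e).2
    simpa [(t _ _ _).1 h2] using hu

theorem result (m : ℕ) : ∃ (A : Sample m → Gr) (q : ℕ[X]), Learner A ∧
    ∀ G : ContextFreeGrammar (Fin (m + 1)), ∃ CS : Sample m, Characteristic A CS G ∧
      CS.1.length + CS.2.length ≤ q.eval (gsize G) := by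
  classical
  refine ⟨lrn, (2 * (X * ((X + C m + 2) * (X + C m + 2 + 2) + 1)) + 2 + 1) ^ 2 + 1,
    ⟨lrn_pt.polyTime, fun S hS => ?_⟩, fun G => ?_⟩
  · unfold lrn
    cases e : (List.range (sz S)).filter (good S) with
    | nil => exact ⟨fun w hw => (triv _ _).2 hw, fun w hw h => hS w ((triv _ _).1 h) hw⟩
    | cons j l => exact good_cons (List.mem_filter.1 (e ▸ List.mem_cons_self)).2
  obtain ⟨j, hj, hs⟩ := exists_gi G
  obtain ⟨M, hM, hM'⟩ := bound (hy m) j
  obtain ⟨N, hN⟩ : ∃ N, ∀ i ≤ j, ∀ h : ∃ t, hy m i t ≠ hy m j t, Nat.find h < N :=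
    ⟨(Finset.range (j + 1)).sup (fun i => if h : ∃ t, hy m i t ≠ hy m j t then Nat.find h else 0) + 1,
      fun i hi h => Nat.lt_succ_of_le (le_trans (by rw [dif_pos h]) (Finset.le_sup
        (f := fun i => if h : ∃ t, hy m i t ≠ hy m j t then Nat.find h else 0)
        (Finset.mem_range.2 (Nat.lt_succ_of_le hi))))⟩
  obtain ⟨W, hW⟩ : ∃ W, W = List.replicate (N + j + 1) 0 :: M.map (str m) := ⟨_, rfl⟩
  refine ⟨(W.filter (· ∈ G.language), W.filter (· ∉ G.language)), ⟨⟨by simp, by simp⟩,
    fun S hS h1 h2 => ?_⟩, ?_⟩
  · have sub : ∀ w ∈ W, w ∈ S.1 ++ S.2 := fun w hw => by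
      by_cases h : w ∈ G.language
      · exact List.mem_append_left _ (h1 (List.mem_filter.2 ⟨hw, by simpa using h⟩))
      · exact List.mem_append_right _ (h2 (List.mem_filter.2 ⟨hw, by simpa using h⟩))
    have big : N + j + 1 ≤ sz S := by
      have a := sz_mem (sub _ (hW ▸ List.mem_cons_self))
      have b := len_le_sz (List.replicate (N + j + 1) (0 : Fin (m + 1)))
      have c := sz_append S.1 S.2
      have d := sz_pair S.1 S.2
      simp only [List.length_replicate, Prod.mk.eta] at b d
      omega
    have ms : ∀ t, mis (hy m) j t = true → str m t ∈ S.1 ++ S.2 := fun t ht =>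
      sub _ (hW ▸ List.mem_cons_of_mem _ (List.mem_map_of_mem (hM' t ht)))
    have gj : good S j = true := by
      simp only [good, Bool.and_eq_true, List.all_eq_true, Bool.not_eq_true', ← Bool.not_eq_true,
        memb_iff, hj, Bool.or_eq_true, decide_eq_true_eq]
      exact ⟨hS, fun t _ => or_iff_not_imp_left.2 fun h => ms t (not_not.1 h)⟩
    have jm : j ∈ (List.range (sz S)).filter (good S) :=
      List.mem_filter.2 ⟨List.mem_range.2 (by omega), gj⟩
    have srt : ((List.range (sz S)).filter (good S)).Pairwise (· < ·) :=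
      List.pairwise_lt_range.filter _
    unfold lrn
    cases e : (List.range (sz S)).filter (good S) with
    | nil => simp [e] at jm
    | cons i l =>
      rw [e] at jm srt
      have ij : i ≤ j := (List.mem_cons.1 jm).elim (·.ge) fun h => (List.rel_of_pairwise_cons srt h).le
      have gi' : good S i = true := (List.mem_filter.1 (e ▸ List.mem_cons_self)).2
      have ci := good_cons gi'
      show (toCFG m (gi i)).language = _
      by_contra ne
      have ex : ∃ t, hy m i t ≠ hy m j t := by
        by_contra! h
        refine ne (Language.ext fun w => ?_)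
        obtain ⟨t, ht, -⟩ := dl_surj (w.map Fin.val)
        have : str m t = w := by simp [str, ht, Function.comp_def]
        rw [← hj, ← memb_iff, ← memb_iff, ← this]
        exact Bool.eq_iff_iff.1 (h t)
      have d := Nat.find_spec ex
      have : str m (Nat.find ex) ∈ S.1 ++ S.2 := by
        rcases noclash _ i j _ (fun s hs => not_not.1 (Nat.find_min ex hs)) d with h | h
        · simp only [good, Bool.and_eq_true, List.all_eq_true] at gi'
          simpa [h] using gi'.2 _ (List.mem_range.2 (show Nat.find ex < _ by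
            have := hN i ij ex; omega))
        · exact ms _ h
      refine d (Bool.eq_iff_iff.2 ?_)
      simp only [hy, memb_iff, hj]
      rcases List.mem_append.1 this with h | h
      · exact iff_of_true (ci.1 _ h) (hS.1 _ h)
      · exact iff_of_false (ci.2 _ h) (hS.2 _ h)
  · have := List.length_eq_length_filter_add (l := W) fun w => decide (w ∈ G.language)
    have h2 := Nat.pow_le_pow_left (Nat.add_le_add_right hs 1) 2
    simp only [hW, List.length_cons, List.length_map] at this
    simp only [← hW, decide_not, eval_add, eval_pow, eval_mul, eval_X, eval_C, eval_one,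
      eval_ofNat] at this ⊢
    omega

end Pool.Agent.Results.MP_35a6f4_lc.Q1
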